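import Pool.Agent.K6.H18.AJ.Cell

/-!
# The rational Abel-Jacobi map for open subvarieties of cellular varieties

Setting as in the case in point: `C` is the category of geometric motives over the algebraic numbers
with rational coefficients, `I` its unit, `P` the Chow motives, `ρ : C ⥤ D` the Hodge realisation in
the bounded derived category of graded-polarizable mixed Hodge structures and `H` the vector space
underlying the zeroth cohomology. The properties in `IsHodge` are known theorems.

Let `G` be a smooth projective variety over the algebraic numbers with a cellular decomposition
(for example a flag variety or a toric variety), `Z` a closed subset of `G`, `W ⟶ Z` proper and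
surjective with `W` smooth and projective, for example a resolution of singularities, and
`U = G - Z`. With `T = M(G)(-l)[-2l]`, `M = M(W)(-l)[-2l]` and `R` the motive `M(Z)(-l)[-2l]` of the
projective variety `Z`, the cone `N` of `R ⟶ T` has `CH^k(U; ℚ)` as group of morphisms `I ⟶ N`, where
`k = dim G - l`, and the kernel of `ρ` on it is the kernel of the Abel-Jacobi map of `U`. The motive
`R` is the cone of a morphism `R₂ ⟶ M` with `R₂` resolved, by the weight structure of Bondarko, since
the Chow groups of `W × Y` map onto those of `Z × Y` with rational coefficients. The classes on `T` are
as in `IsCellular`, since homological, numerical and rational equivalence agree on `G` and all its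
cohomology classes are algebraic.

Theorem. The rational Abel-Jacobi map of `U` in codimension `k = dim G - l` is injective if and only if
every class in the image of `CH^l(G; ℚ) ⟶ CH^l(W; ℚ)` which is numerically equivalent to zero is
homologically equivalent to zero.

So the question for open subvarieties of cellular varieties is a question on the standard
conjecture D. It has a positive answer for all open subvarieties `U = G - Z` of cellular varieties
such that homological and numerical equivalence agree on a resolution `W` of `Z`, which is known by
Lieberman if `W` is an abelian variety or of dimension at most four, and in general for `l ≤ 2`.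

Steps of the proof. (⇒) If the pullback of `σ` to `W` is nonzero in cohomology then there is a Hodge
class `η` on `W` with `⟨σ, η⟩ ≠ 0`; it lifts to absolute Hodge cohomology, and its image in `G` is
algebraic and dies on `U`. By injectivity it comes from an algebraic cycle `y` on `W`, with
`⟨σ, y⟩ = ⟨σ, η⟩`. (⇐) A class on `U` with zero realisation lifts to a class on `G` whose realisation is
the image of a class `η` on `W`. If it were not the image of an algebraic cycle on `W`, then some class
`σ` on `G` would be orthogonal to all these images and not to the lift; but its pullback to `W` is
numerically trivial, hence cohomologically trivial, and orthogonal to `η`.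
-/

set_option autoImplicit false

open CategoryTheory Limits Pretriangulated

universe v u v' u' w

namespace Pool.Agent.Results.MP_537ea0_ag.CellularComplements

open Pool.Agent.K6.H18.AJ

/-- For the complement of a closed subset in a cellular variety the Abel-Jacobi map is injective if
and only if homological and numerical equivalence agree for the classes on a resolution of the
subset which are restricted from the cellular variety. -/
theorem result {C : Type u} [Category.{v} C] [Preadditive C] [HasZeroObject C] [HasShift C ℤ]
    [∀ n : ℤ, (shiftFunctor C n).Additive] [Pretriangulated C] [Linear ℚ C]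
    {D : Type u'} [Category.{v'} D] [Preadditive D] [HasZeroObject D] [HasShift D ℤ]
    [∀ n : ℤ, (shiftFunctor D n).Additive] [Pretriangulated D]
    {E : Type w} [Field E] [CharZero E] (ρ : C ⥤ D) [ρ.CommShift ℤ] [ρ.IsTriangulated]
    (H : D ⥤ ModuleCat.{w} E) [H.Additive] (I : C) (P : C → Prop) (h : IsHodge ρ H I P)
    {R₂ M R T N : C} {r₂ : R₂ ⟶ M} {q : M ⟶ R} {δ₂ : R ⟶ R₂⟦(1 : ℤ)⟧}
    {r : R ⟶ T} {p : T ⟶ N} {δ : N ⟶ R⟦(1 : ℤ)⟧} (hT : IsCellular ρ H I T) (hM : P M)
    (hR₂ : Resolved P R₂) (h₂ : Triangle.mk r₂ q δ₂ ∈ distTriang C)
    (h₁ : Triangle.mk r p δ ∈ distTriang C) :
    Injective ρ I N ↔ ∀ σ : T ⟶ I, H.map (ρ.map (q ≫ r ≫ σ)) ≠ 0 →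
      ∃ y : I ⟶ M, y ≫ q ≫ r ≫ σ ≠ 0 :=
  cellular_iff h hT hM hR₂ h₂ h₁

end Pool.Agent.Results.MP_537ea0_ag.CellularComplements
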