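import Pool.Agent.K6.H18.Cubic.Reduced

/-!
# Injectivity of the Abel-Jacobi map over the algebraic numbers: reduction to explicit smooth cubic
hypersurfaces with coefficients `0`, `1`, `-1`

The case in point is `k = ℚ̄`, `S = ∅`, `𝒱` the class of all quasi-projective varieties.

The hypersurfaces. Let `k` be a field which is a separable algebraic extension of the subfield
generated by the countable subset `S`. For polynomials `e_1, …, e_r`, `r > 0`, in `k[x_1, …, x_m]`, each of
one of the forms `x_a - x_b x_c`, `x_a - (x_b + x_c)`, `x_a - 1`, `x_a - s` with `s` in `S`
(`IsElementary S e`), let `V(e)` (`Hypersurface e`) be the hypersurface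
`∑ u_j e_j(x) = w (1 - w)`
in the affine space with coordinates `x_i`, `u_j`, `w`. It is smooth of dimension `m + r`, integral,
rational and of degree at most three (`IsRationalHypersurface e`). If `S` is empty the coefficients
of these equations are `0`, `1`, `-1`.

The theories. `BM k`: Borel-Moore homology theories on the affine schemes of finite type over `k`,
with push-forward along closed immersions, pull-back along smooth morphisms, localization sequences,
homotopy invariance, and the usual compatibilities. `M` and `T` are such theories and `c : M → T` is
a morphism. The case in point, over `k = ℚ̄`: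
* `M.H B a b` is Bloch's higher Chow group `CH_b(Spec B, a)` with rational coefficients;
* `T.H B a b` is the absolute Hodge homology (Beilinson, Jannsen) of the base change of `Spec B` to
  `ℂ` in degree `a + 2b` with coefficients `ℚ(b)`; for `Spec B` smooth of pure dimension `d` this is
  the absolute Hodge cohomology in degree `2(d-b) - a` with coefficients `ℚ(d-b)`;
* `c` is the cycle class map (base change from `ℚ̄` to `ℂ` followed by the regulator).
The required properties are known (Bloch; Beilinson, Jannsen). For a smooth variety `X` of pure
dimension `d` and `i = d - b`, the absolute Hodge cohomology in degree `2i` with coefficients `ℚ(i)`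
is an extension of the group of Hodge classes in `H^{2i}(X, ℚ(i))` by
`Ext^1(ℚ, H^{2i-1}(X, ℚ(i))) = J^i(X) ⊗ ℚ`, and the restriction of `c` to the homologically trivial
cycles is the Abel-Jacobi map `Φ_{i,ℚ}` of the problem. So `Inj c B b`, the injectivity of `c` on the
cycles of dimension `b` (`a = 0`), is the injectivity of `Φ_{i,ℚ}`. For a point this is obvious. For a variety `X` which need not be affine the same statement is `TX X b`; the trick of
Jouanolou relates it to the affine case (`hTX`).

Theorem. There is one sequence `V_1, V_2, …` of hypersurfaces `V(e)` with constants in `S` (`v N` is
the system `e` of `V_N`) such that the following are equivalent (`IsReduced`):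
* (Q1) the injectivity of `c`, in all dimensions, for all smooth varieties in `𝒱`;
* the injectivity of `c` for all varieties in `𝒱`, possibly singular;
* the injectivity of `c` for all hypersurfaces `V(e)`, `e` elementary with constants in `S`;
* the injectivity of `c` for infinitely many `V_N`.
Moreover, for every variety `X` in `𝒱`, singular or not, and all but finitely many `N` there is a
number `n` such that for all `b` the injectivity for `V_N` and cycles of dimension `b + n` implies
the one for `X` and cycles of dimension `b`. If arbitrary constants `s` in `k` are allowed the two
statements are equivalent for a suitable `V(e)` and `n` and all `b`. So Q1 is equivalent to its case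
of one sequence of explicit smooth rational affine cubic hypersurfaces, with equations with
coefficients `0`, `1`, `-1`.

Steps of the proof. (1) For every ring `B` and `e_1, …, e_r` in `B`, the scheme
`Spec B[u_1, …, u_r, w] / (∑ u_j e_j - w (1 - w))` is smooth over `Spec B` of relative dimension `r`.
If some `e_j` is invertible, it is an affine space over `Spec B`; if all `e_j` vanish, it is the
disjoint union of two affine spaces. (2) By induction on the number of nonzero `e_j`, with a diagram
chase in the localization sequences, its Borel-Moore homology is the direct sum of that of `Spec B`,
by pull-back, and that of `Spec B/(e_1, …, e_r)`, by pull-back to affine space and push-forward.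
(3) Every algebra of finite type over `k` is `k[x_1, …, x_m]/(e_1, …, e_r)` with `e_j` as above, with
constants in `k`. (4) If every relation `x_a - s` is replaced by the minimal polynomial of `s` over
the subfield generated by `S`, the algebra becomes a direct factor of the new one, which has a
presentation with constants in `S`; the homology of a disjoint union is the direct sum. (5) `V_N`
belongs to the disjoint union of the first `N` hypersurfaces of an enumeration of all `V(e)`. All
inclusions and projections commute with the cycle map.
-/

set_option autoImplicit false

open AlgebraicGeometry CategoryTheory MvPolynomial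

namespace Pool.Agent.Results.MP_537ea0_ag.CubicHypersurfaces

open Pool.Agent.K6.H18.Cubic Pool.Agent.K6.H18.Cubic.Alg

/-- The homomorphism `c` is injective on the group of cycles of dimension `b` of `Spec B`. -/
def Inj {k : Type} [CommRing k] {M T : BM k} (c : M.Hom T) (B : Alg k) (b : ℤ) : Prop :=
  Function.Injective (c.mapf (B := B) (a := 0) (b := b))

/-- Injectivity of the Abel-Jacobi map for smooth varieties over `ℚ̄` is equivalent to its case of
infinitely many members of one sequence of explicit smooth rational cubic hypersurfaces with
coefficients `0`, `1`, `-1`. -/
theorem result {k : Type} [Field k] (S : Set k) (hS : S.Countable)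
    [Algebra.IsSeparable (Subfield.closure S) k] :
    (∀ (m r : ℕ) (e : Fin r → MvPolynomial (Fin m) k), IsElementary Set.univ e →
      IsRationalHypersurface e) ∧
    ∃ v : ℕ → EqnSystem k, (∀ N, IsElementary S (v N).eqs) ∧
      ∀ (M T : BM k) (c : M.Hom T) (𝒱 : Over (Spec (CommRingCat.of k)) → Prop)
        (TX : Over (Spec (CommRingCat.of k)) → ℤ → Prop), IsExtensionOf (Inj c) 𝒱 TX →
        IsReduced S v 𝒱 TX ∧ ((∀ b, Inj c (base k) b) →
          ∀ X, 𝒱 X → ∃ (m r n : ℕ) (e : Fin r → MvPolynomial (Fin m) k),
            IsElementary Set.univ e ∧ ∀ b, TX X b ↔ TX (specOf (Hypersurface e)) (b + n)) := by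
  obtain ⟨v, hv, h⟩ := exists_isReduced (k := k) hS
  refine ⟨fun _ _ e he => isRationalHypersurface e he, v, hv, fun M T c 𝒱 TX hTX =>
    ⟨h _ (inherited_injective c) 𝒱 TX hTX, fun hk X hX => ?_⟩⟩
  have hP : SplitsP (fun (B : Type) [CommRing B] [Algebra k B] b => Inj c ⟨B⟩ b) :=
    (isAdditive_injective (G := Empty)).splitsP_bundled c (fun g => g.elim) 0
  obtain ⟨m, r, n, e, he, -, hb⟩ := exists_iff hP hk hTX X hX
  exact ⟨m, r, n, e, he, hb⟩

end Pool.Agent.Results.MP_537ea0_ag.CubicHypersurfaces
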