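import Pool.Agent.K6.H7.AJ.Open

/-!
# The growth of the kernels of the Abel-Jacobi maps on the products `V × X ^ n`, `V` open

Let `V` be ANY nonempty smooth quasiprojective variety over the algebraic numbers (projective or not) and
`X` a smooth projective variety which satisfies the sign conjecture `C⁺` (known if `X` is a product of
curves, surfaces, abelian varieties, complete intersections, for example an elliptic curve). Let `b`
be the total Betti number of `X`, let `ρ (n)` be the rank of the group of the cycles of all codimensions on
`X ^ n` modulo numerical equivalence, and let `κ (n)` be the dimension (a number or infinity) of the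
direct sum over `k` of the kernels of the rational Abel-Jacobi maps `Φ_k` of the smooth variety
`V × X ^ n`. The conjecture of the question predicts `κ (n) = 0`.

Theorem. The quotient `κ (n) / ρ (n)` converges, for `n → ∞`, to an element `N` of `{0, 1, 2, …, ∞}`.

* `N = 0` if and only if all maps `Φ_k` of all varieties `V × X ^ n`, `n ≥ 0`, are injective.
* If `κ (n) ≤ c ρ (n)` for infinitely many `n`, with a natural number `c`, then `N ≤ c`.
* If `2 κ (n) < ρ (n)` for ONE number `n ≥ 128 (m + 1) ^ 2 b ^ (2 m + 6)` then the maps `Φ_k` of
  `V × X ^ m` are injective for all `k`; so the case `m = 0` is a criterion for `V` itself.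
* If `N = k` is finite then all these kernels are finite-dimensional, each composition of `k + 2`
  homologically trivial correspondences between powers of `X` is zero (modulo torsion), and the Chow
  motive of `X` is finite-dimensional in the sense of Kimura.

The setting. `C` is the pseudo-abelian hull of the category of the smooth projective varieties over the
algebraic numbers with the groups `CH^*(X × Y)_ℚ` (all codimensions) as morphisms, a rigid symmetric
monoidal category; `T = h(X)` is self-dual and `tp T n = h(X ^ n)`; `R` is singular cohomology with
coefficients extended to an algebraically closed field. `G(Z)` is `CH^*(V × Z)_ℚ`, `H(Z)` is the direct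
sum over `k` of the absolute Hodge cohomology groups of degree `2 k` and twist `k` of `V × Z`,
extensions of the Hodge classes by the groups `Ext^1_MHS(ℚ, H^(2 k - 1)(V × Z, ℚ(k)))`, and `φ` is the cycle
class, whose kernel is the sum of the kernels of the maps `Φ_k`. `SquareZero` is known: a homologically
trivial correspondence acts on the complex of mixed Hodge structures which computes the cohomology of
`V × Z` through extensions of degree one, and `Ext^2_MHS = 0` (Beilinson). `Faithful` holds for the class
`u` of `V`: restrict to a point of `V`.

Idea of the proof. By the law of the dimensions of the values of additive functors on the powers of `X`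
(starting library, files N64/AF: helper64 and many others), applied to the kernel of `φ`, the limit
exists, is zero only if the kernels vanish, and if it is a natural number `k` then the
compositions of `k` numerically trivial correspondences act as zero on the kernels. But
compositions of two homologically trivial correspondences map all cycles to the kernels.

For projective `V` over number fields see `MP_a1cc03_ag.SizeOfKernels`.
-/

set_option autoImplicit false

open CategoryTheory MonoidalCategory Module Filter Topology
open Pool.Agent.Y112.SR Pool.Agent.Y112.KD Pool.Agent.N64.AF Pool.Agent.K6.H7.AJ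
open scoped ENNReal

namespace Pool.Agent.Results.MP_537ea0_ag.GrowthOfKernels

universe v u w x

/-- The growth of the kernels of the Abel-Jacobi maps. -/
theorem result {C : Type u} [Category.{v} C] [Preadditive C] [MonoidalCategory C]
    [MonoidalPreadditive C] [SymmetricCategory C] [RightRigidCategory C]
    [Linear ℚ C] [MonoidalLinear ℚ C] [IsIdempotentComplete C]
    {K : Type w} [Field K] [IsAlgClosed K] [Algebra ℚ K] (R : SuperRealisation C K)
    (G H : C ⥤ ModuleCat.{x} ℚ) [G.Additive] [G.Linear ℚ] [H.Additive] [H.Linear ℚ] (φ : G ⟶ H)
    (hH : SquareZero R H) (u : G.obj (𝟙_ C)) (hu : Faithful G u)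
    (T : C) [ExactPairing T T] (h : IsPow ℚ R T) :
    ∃ N : ℕ∞,
      RatioTo ℚ T (fun n => kerDim φ (tp T n)) N ∧
      (N = 0 ↔ ∀ n, Function.Injective (φ.app (tp T n)).hom) ∧
      (∀ c : ℕ, (∃ᶠ n in atTop, kerDim φ (tp T n) ≤ c * numRank ℚ (tp T n)) → N ≤ c) ∧
      (∀ m n : ℕ, 128 * (m + 1) ^ 2 * bt R T ^ (2 * m + 6) ≤ n →
        2 * kerDim φ (tp T n) < numRank ℚ (tp T n) → Function.Injective (φ.app (tp T m)).hom) ∧
      ∀ k : ℕ, N = k → (∀ n, Module.Finite ℚ (LinearMap.ker (φ.app (tp T n)).hom)) ∧
        (∀ (a b : ℕ) (f : tp T a ⟶ tp T b), HomPow R T (k + 2) f → f = 0) ∧
        Pool.Agent.R905.IsKimuraFinite T :=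
  open_law φ hH u hu h

end Pool.Agent.Results.MP_537ea0_ag.GrowthOfKernels
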