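import Pool.Agent.K6.H18.AJ.Main

/-!
# Injectivity of the rational Abel-Jacobi map over the algebraic numbers, and the standard
conjecture D

`C` is a `ℚ`-linear triangulated category with an object `I` and a class `P` of objects, and
`ρ : C ⥤ D` is an exact functor to a triangulated category with a functor `H` to vector spaces. The
case in point: `C` is the category of geometric motives of Voevodsky over the field of algebraic
numbers with rational coefficients, `I` its unit, `P` the class of Chow motives (the direct summands
of the `M(X)(n)[2n]`, `X` smooth projective), `D` the bounded derived category of graded-polarizable
mixed Hodge structures, `ρ` the Hodge realisation and `H` the vector space underlying the zeroth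
cohomology. The properties collected in `IsHodge` are known theorems in this case.
* The endomorphism ring of the unit is `ℚ`; Chow motives have duals (Poincaré duality).
* There are no morphisms from the unit to the positive shifts of a Chow motive (Voevodsky); neither
  are there after the Hodge realisation, since the unit has no nonsplit extension by a polarizable
  Hodge structure of weight at least zero.
* A morphism `M ⟶ I` of a Chow motive which is nonzero in cohomology is nonzero on some Hodge class,
  by polarizability.

For a smooth quasi-projective variety `U` put `N = M(U)^∨(k)[2k]`. The group of morphisms `I ⟶ N` is
`CH^k(U; ℚ)`, and as the second extension groups of mixed Hodge structures vanish, the kernel of `ρ`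
on this group is the kernel of the rational Abel-Jacobi map on the homologically trivial cycles. So
the question is whether `ρ` is injective on these groups. The class `V` of all these objects `N`
satisfies `IsOpenClass`: a smooth compactification of `U` with boundary a normal crossing divisor
gives a resolution of `N`; and if `X` is smooth projective and connected and `α` is in
`CH^k(X; ℚ)`, then `X` has a closed embedding in a product `G` of Grassmannians such that `α` is the
restriction of a class `σ` on `G`, since the classes of vector bundles generate the Chow ring of `X`.
For `U = G - X` the localisation sequence is a triangle of the required form, and all Hodge classes on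
`G` are algebraic.

Theorem. The Abel-Jacobi map is injective for all smooth quasi-projective varieties and all `k` if
and only if
* (standard conjecture D) homological and numerical equivalence agree on smooth projective
  varieties, and
* for every smooth quasi-projective `U`, the Abel-Jacobi map of `U` is injective on the restrictions
  to `U` of the homologically trivial cycles on a smooth compactification of `U`.

Steps of the proof. (⇒) Let `f : M ⟶ I` be nonzero in cohomology. By polarizability there is a Hodge
class `η` on `M` with `f(η) ≠ 0`, and it lifts to absolute Hodge cohomology. Its image in `T` is
algebraic and dies in the absolute Hodge cohomology of the cone, so by injectivity it is the image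
of an algebraic class `y` on `M`, and `f(y) = f(η) ≠ 0`. The other form of the conjecture D follows by
duality. (⇐) Let `z : I ⟶ N` have zero realisation. It lifts to `z₀ : I ⟶ M`, `M` the Chow motive of the
compactification, and the realisation of `z₀` is the image of a class `η` on the boundary. By D, `z₀`
is homologically equivalent to an algebraic class supported on the boundary: otherwise a functional
on `M` would vanish on these but not on `z₀`; by D it is cohomologically trivial on the boundary, so
it vanishes on the image of `η`. So `z` extends to a homologically trivial class.
-/

set_option autoImplicit false

open CategoryTheory Limits Pretriangulated

universe v u v' u' w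

namespace Pool.Agent.Results.MP_537ea0_ag.OpenVarieties

open Pool.Agent.K6.H18.AJ

/-- The Abel-Jacobi map over the algebraic numbers is injective for all open varieties if and only
if homological and numerical equivalence agree and it is injective on the cycles which extend to
homologically trivial cycles on a smooth compactification. -/
theorem result {C : Type u} [Category.{v} C] [Preadditive C] [HasZeroObject C] [HasShift C ℤ]
    [∀ n : ℤ, (shiftFunctor C n).Additive] [Pretriangulated C] [Linear ℚ C]
    {D : Type u'} [Category.{v'} D] [Preadditive D] [HasZeroObject D] [HasShift D ℤ]
    [∀ n : ℤ, (shiftFunctor D n).Additive] [Pretriangulated D]
    {E : Type w} [Field E] [CharZero E] (ρ : C ⥤ D) [ρ.CommShift ℤ] [ρ.IsTriangulated]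
    (H : D ⥤ ModuleCat.{w} E) [H.Additive] (I : C) (P V : C → Prop)
    (h : IsHodge ρ H I P) (hV : IsOpenClass ρ I P V) :
    (∀ N, V N → Injective ρ I N) ↔
      HomEqNum (ρ ⋙ H) I P ∧ ∀ N, V N → InjectiveHom ρ H I P N :=
  injective_iff h hV

end Pool.Agent.Results.MP_537ea0_ag.OpenVarieties
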